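import Mathlib.Algebra.BigOperators.Fin
import Mathlib.Data.Set.Card
import Mathlib.Algebra.Order.Pi
import Mathlib.Data.Int.Star
import Mathlib.Algebra.Order.Ring.Star
import Mathlib.Algebra.Order.Star.Real
import Mathlib.Algebra.Order.Sub.Prod
import Mathlib.Tactic.Algebra.Basic
import Mathlib.Tactic.Cases

-- ======== part 0: formerly Pool.Agent.MP_96f5a9_co.h22.Basic
section MrgPart0

/-! Generalized numerical semigroups: generators, factorizations and a layer-cake lemma. -/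

set_option autoImplicit false

namespace Pool.Agent.MP_96f5a9_co.h22

open Finset

/-- layer-cake comparison of two weighted sums -/
theorem layer_cake {α : Type*} [DecidableEq α] (P : Finset α) (w a b : α → ℕ)
    (h : ∀ v : ℕ, ∃ ι : α → α, Set.InjOn ι {x | x ∈ P ∧ v < a x} ∧
      ∀ x ∈ P, v < a x → ι x ∈ P ∧ v < b (ι x) ∧ w x ≤ w (ι x)) :
    ∑ x ∈ P, w x * a x ≤ ∑ x ∈ P, w x * b x := by
  classical
  set B := P.sup a + P.sup b with hB
  have key : ∀ c : α → ℕ, (∀ x ∈ P, c x ≤ B) →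
      ∑ x ∈ P, w x * c x = ∑ v ∈ range B, ∑ x ∈ P.filter (fun x => v < c x), w x := by
    intro c hc
    simp_rw [Finset.sum_filter]
    rw [Finset.sum_comm]
    refine Finset.sum_congr rfl fun x hx => ?_
    rw [← Finset.sum_filter, Finset.sum_const, smul_eq_mul, mul_comm]
    congr 1
    have : (range B).filter (fun v => v < c x) = range (c x) := by
      ext v
      simp only [mem_filter, mem_range]
      have := hc x hx
      omega
    rw [this, card_range]
  rw [key a (fun x hx => le_trans (Finset.le_sup (f := a) hx) (Nat.le_add_right _ _)),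
    key b (fun x hx => le_trans (Finset.le_sup (f := b) hx) (Nat.le_add_left _ _))]
  refine Finset.sum_le_sum fun v _ => ?_
  obtain ⟨ι, hinj, hι⟩ := h v
  calc ∑ x ∈ P.filter (fun x => v < a x), w x
      ≤ ∑ x ∈ P.filter (fun x => v < a x), w (ι x) := by
        refine Finset.sum_le_sum fun x hx => ?_
        rw [mem_filter] at hx
        exact (hι x hx.1 hx.2).2.2
    _ = ∑ y ∈ (P.filter (fun x => v < a x)).image ι, w y := by
        rw [Finset.sum_image]
        intro x hx y hy hxy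
        have hx' := mem_filter.1 (Finset.mem_coe.1 hx)
        have hy' := mem_filter.1 (Finset.mem_coe.1 hy)
        exact hinj hx' hy' hxy
    _ ≤ ∑ y ∈ P.filter (fun x => v < b x), w y := by
        refine Finset.sum_le_sum_of_subset ?_
        intro y hy
        obtain ⟨x, hx, rfl⟩ := mem_image.1 hy
        rw [mem_filter] at hx ⊢
        exact ⟨(hι x hx.1 hx.2).1, (hι x hx.1 hx.2).2.1⟩

variable {ι : Type*} [Fintype ι] [DecidableEq ι]

/-- minimal generators -/
def Gen (S : AddSubmonoid (ι → ℕ)) : Set (ι → ℕ) :=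
  {x | x ∈ S ∧ x ≠ 0 ∧ ∀ a ∈ S, ∀ b ∈ S, a + b = x → a = 0 ∨ b = 0}

omit [DecidableEq ι] in
theorem gen_finite (S : AddSubmonoid (ι → ℕ)) (c : ι → ℕ) (hc : ∀ i, 0 < c i)
    (hbox : ∀ x, x ∉ S → ∀ i, x i < c i) : (Gen S).Finite := by
  classical
  refine (Fintype.piFinset fun i => range (2 * c i + 1)).finite_toSet.subset ?_
  intro x hx
  obtain ⟨_, _, hx3⟩ := hx
  simp only [Finset.mem_coe, Fintype.mem_piFinset, mem_range]
  intro i
  by_contra hlt
  push Not at hlt
  have h1 : (Pi.single i (c i) : ι → ℕ) ∈ S := by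
    by_contra h
    have := hbox _ h i
    simp at this
  have h2 : x - Pi.single i (c i) ∈ S := by
    by_contra h
    have := hbox _ h i
    simp at this
    omega
  have h3 : (Pi.single i (c i) : ι → ℕ) + (x - Pi.single i (c i)) = x := by
    funext k
    by_cases hk : k = i
    · subst hk; simp; omega
    · simp [hk]
  rcases hx3 _ h1 _ h2 h3 with h | h
  · have := congrFun h i
    have := hc i
    simp at *
    omega
  · have := congrFun h i
    simp at this
    omega

omit [DecidableEq ι] in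
/-- every element is a sum of minimal generators -/
theorem exists_fact (S : AddSubmonoid (ι → ℕ)) (G : Finset (ι → ℕ))
    (hG : ∀ g, g ∈ G ↔ g ∈ Gen S) (x : ι → ℕ) (hx : x ∈ S) :
    ∃ t : (ι → ℕ) → ℕ, x = ∑ g ∈ G, t g • g := by
  classical
  induction' hn : ∑ k, x k using Nat.strong_induction_on with n ih generalizing x
  by_cases h0 : x = 0
  · exact ⟨0, by simp [h0]⟩
  by_cases hg : x ∈ Gen S
  · refine ⟨fun g => if g = x then 1 else 0, ?_⟩
    rw [Finset.sum_eq_single x]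
    · simp
    · intro b _ hb; simp [hb]
    · intro h; exact absurd ((hG x).2 hg) h
  · have : ∃ a ∈ S, ∃ b ∈ S, a + b = x ∧ a ≠ 0 ∧ b ≠ 0 := by
      by_contra hcon
      apply hg
      refine ⟨hx, h0, fun a ha b hb hab => ?_⟩
      by_contra h
      push Not at h
      exact hcon ⟨a, ha, b, hb, hab, h.1, h.2⟩
    obtain ⟨a, ha, b, hb, hab, ha0, hb0⟩ := this
    have hsum : ∑ k, a k + ∑ k, b k = n := by
      rw [← hn, ← hab, ← Finset.sum_add_distrib]; rfl
    have pos : ∀ y : ι → ℕ, y ≠ 0 → 0 < ∑ k, y k := by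
      intro y hy
      rcases Nat.eq_zero_or_pos (∑ k, y k) with h | h
      · exfalso; apply hy; funext k
        exact (Finset.sum_eq_zero_iff.1 h) k (mem_univ k)
      · exact h
    have pa := pos a ha0
    have pb := pos b hb0
    obtain ⟨ta, hta⟩ := ih _ (by omega) a ha rfl
    obtain ⟨tb, htb⟩ := ih _ (by omega) b hb rfl
    refine ⟨fun g => ta g + tb g, ?_⟩
    rw [← hab]
    simp_rw [add_smul]
    rw [Finset.sum_add_distrib, ← hta, ← htb]

/-- number of `k` with `r + m k < c` -/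
def qq (c m r : ℕ) : ℕ := (c + m - 1 - r) / m

theorem lt_qq {c m r k : ℕ} (hm : 0 < m) : k < qq c m r ↔ r + m * k < c := by
  unfold qq
  rw [Nat.lt_iff_add_one_le, Nat.le_div_iff_mul_le hm]
  have : (k + 1) * m = m * k + m := by ring
  omega

theorem qq_anti {c m r r' : ℕ} (h : r ≤ r') : qq c m r' ≤ qq c m r :=
  Nat.div_le_div_right (by omega)

theorem qq_add {c m r l : ℕ} (hm : 0 < m) : qq c m (r + m * l) = qq c m r - l := by
  apply Nat.le_antisymm
  · by_contra h
    push Not at h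
    have h1 := (lt_qq hm).1 h
    have h2 : ¬ (qq c m r - l + l < qq c m r) := by omega
    rw [lt_qq hm] at h2
    apply h2
    have : m * (qq c m r - l + l) = m * l + m * (qq c m r - l) := by ring
    omega
  · by_contra h
    push Not at h
    have h1 : qq c m (r + m * l) + l < qq c m r := by omega
    rw [lt_qq hm] at h1
    have h2 : ¬ (qq c m (r + m * l) < qq c m (r + m * l)) := lt_irrefl _
    rw [lt_qq hm] at h2
    apply h2
    have : m * (qq c m (r + m * l) + l) = m * l + m * qq c m (r + m * l) := by ring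
    omega

theorem qq_succ_ge {c m r : ℕ} (hm : 0 < m) (hr : r < m) : qq c m 0 ≤ qq c m r + 1 := by
  have h1 : qq c m (0 + m * 1) = qq c m 0 - 1 := qq_add hm
  have h2 : qq c m (0 + m * 1) ≤ qq c m r := qq_anti (by omega)
  omega

theorem sum_qq (c : ℕ) {m : ℕ} (hm : 0 < m) : ∑ r ∈ range m, qq c m r = c := by
  have h : (range c).card = ∑ r ∈ range m, ((range c).filter (fun z => z % m = r)).card :=
    Finset.card_eq_sum_card_fiberwise (fun z _ => by simpa using Nat.mod_lt z hm)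
  rw [card_range] at h
  conv_rhs => rw [h]
  refine Finset.sum_congr rfl fun r hr => ?_
  rw [mem_range] at hr
  rw [← card_range (qq c m r)]
  refine Finset.card_bij (fun k _ => r + m * k) ?_ ?_ ?_
  · intro k hk
    rw [mem_range, lt_qq hm] at hk
    simp only [mem_filter, mem_range]
    exact ⟨hk, by rw [Nat.add_mul_mod_self_left, Nat.mod_eq_of_lt hr]⟩
  · intro k _ k' _ hkk
    have : m * k = m * k' := by omega
    exact Nat.eq_of_mul_eq_mul_left hm this
  · intro z hz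
    simp only [mem_filter, mem_range] at hz
    have := Nat.mod_add_div z m
    refine ⟨z / m, ?_, by omega⟩
    rw [mem_range, lt_qq hm]
    omega

end Pool.Agent.MP_96f5a9_co.h22

end MrgPart0

-- ======== part 1: formerly Pool.Agent.MP_96f5a9_co.h22.Direction
section MrgPart1

/-! The one-direction inequality: Apery elements along the axis `i`. -/

set_option autoImplicit false

namespace Pool.Agent.MP_96f5a9_co.h22

open Finset

/-- A submonoid whose gaps lie in the box `∏ [0, c i)`, with axis elements `m i • e i` and no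
nonzero element in `∏ [0, m i)`. -/
structure Setup (ι : Type) [Fintype ι] [DecidableEq ι] where
  S : AddSubmonoid (ι → ℕ)
  c : ι → ℕ
  m : ι → ℕ
  G : Finset (ι → ℕ)
  hc : ∀ i, 0 < c i
  hbox : ∀ x, x ∉ S → ∀ i, x i < c i
  hm : ∀ i, 0 < m i
  hmS : ∀ i, (Pi.single i (m i) : ι → ℕ) ∈ S
  hempty : ∀ x ∈ S, (∀ i, x i < m i) → x = 0
  hG : ∀ g, g ∈ G ↔ g ∈ Gen S

namespace Setup

variable {ι : Type} [Fintype ι] [DecidableEq ι] (D : Setup ι)

/-- axis generator -/
def E (i : ι) : ι → ℕ := Pi.single i (D.m i)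

/-- residue box -/
def R : Finset (ι → ℕ) := Fintype.piFinset fun k => range (D.m k)

theorem mem_R {r : ι → ℕ} : r ∈ D.R ↔ ∀ k, r k < D.m k := by
  simp [R, Fintype.mem_piFinset]

theorem E_self (i : ι) : D.E i i = D.m i := by simp [E]

theorem E_ne {i k : ι} (h : k ≠ i) : D.E i k = 0 := by simp [E, h]

theorem E_mem (i : ι) : D.E i ∈ D.S := D.hmS i

theorem ex_lev (i : ι) (r : ι → ℕ) : r + qq (D.c i) (D.m i) (r i) • D.E i ∈ D.S := by
  by_contra h
  have h1 := D.hbox _ h i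
  have h2 : ¬ (qq (D.c i) (D.m i) (r i) < qq (D.c i) (D.m i) (r i)) := lt_irrefl _
  rw [lt_qq (D.hm i)] at h2
  apply h2
  simpa [E_self, mul_comm] using h1

open Classical in
/-- level of the Apery element of the class `r` along the axis `i` -/
noncomputable def lev (i : ι) (r : ι → ℕ) : ℕ :=
  Nat.find (⟨_, D.ex_lev i r⟩ : ∃ l : ℕ, r + l • D.E i ∈ D.S)

theorem lev_spec (i : ι) (r : ι → ℕ) : r + D.lev i r • D.E i ∈ D.S := by
  classical
  exact Nat.find_spec (⟨_, D.ex_lev i r⟩ : ∃ l : ℕ, r + l • D.E i ∈ D.S)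

theorem lev_le (i : ι) (r : ι → ℕ) {l : ℕ} (h : r + l • D.E i ∈ D.S) : D.lev i r ≤ l := by
  classical
  exact Nat.find_min' (⟨_, D.ex_lev i r⟩ : ∃ l : ℕ, r + l • D.E i ∈ D.S) h

theorem lev_le_qq (i : ι) (r : ι → ℕ) : D.lev i r ≤ qq (D.c i) (D.m i) (r i) :=
  D.lev_le i r (D.ex_lev i r)

theorem lev_zero (i : ι) : D.lev i 0 = 0 :=
  Nat.le_zero.1 (D.lev_le i 0 (by simp))

theorem lev_pos (i : ι) {r : ι → ℕ} (hr : r ∈ D.R) (h0 : r ≠ 0) : 1 ≤ D.lev i r := by
  by_contra h
  have h1 : D.lev i r = 0 := by omega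
  have h2 := D.lev_spec i r
  rw [h1] at h2
  exact h0 (D.hempty r (by simpa using h2) (D.mem_R.1 hr))

/-- Apery element -/
noncomputable def ap (i : ι) (r : ι → ℕ) : ι → ℕ := r + D.lev i r • D.E i

theorem ap_self (i : ι) (r : ι → ℕ) : D.ap i r i = r i + D.m i * D.lev i r := by
  simp [ap, E_self, mul_comm]

theorem ap_ne {i k : ι} (r : ι → ℕ) (h : k ≠ i) : D.ap i r k = r k := by
  simp [ap, D.E_ne h]

/-- the Apery set in the slab -/
noncomputable def P (i : ι) : Finset (ι → ℕ) := D.R.image (D.ap i)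

theorem ap_inj (i : ι) : Set.InjOn (D.ap i) D.R := by
  intro r hr r' hr' h
  have hr := D.mem_R.1 hr
  have hr' := D.mem_R.1 hr'
  funext k
  by_cases hk : k = i
  · subst hk
    have h1 := congrFun h k
    rw [ap_self, ap_self] at h1
    have h2 := congrArg (· % D.m k) h1
    simpa [Nat.add_mul_mod_self_left, Nat.mod_eq_of_lt (hr k), Nat.mod_eq_of_lt (hr' k)] using h2
  · have h1 := congrFun h k
    rwa [D.ap_ne r hk, D.ap_ne r' hk] at h1

theorem P_not_add (i : ι) {x y : ι → ℕ} (hx : x ∈ D.P i) (hy : y ∈ D.S) : x ≠ y + D.E i := by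
  obtain ⟨r, hr, rfl⟩ := mem_image.1 hx
  intro h
  have hri := D.mem_R.1 hr i
  have h1 := congrFun h i
  rw [ap_self] at h1
  simp only [Pi.add_apply, E_self] at h1
  have hl : 1 ≤ D.lev i r := by
    by_contra hl
    have : D.lev i r = 0 := by omega
    rw [this] at h1
    omega
  have h2 : y = r + (D.lev i r - 1) • D.E i := by
    have h3 : y + D.E i = r + (D.lev i r - 1) • D.E i + D.E i := by
      rw [← h, add_assoc, ← succ_nsmul, Nat.sub_add_cancel hl]; rfl
    exact add_right_cancel h3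
  have := D.lev_le i r (h2 ▸ hy)
  omega

theorem mem_P_of (i : ι) {x : ι → ℕ} (hx : x ∈ D.S) (hk : ∀ k, k ≠ i → x k < D.m k)
    (hn : ∀ y ∈ D.S, x ≠ y + D.E i) : x ∈ D.P i := by
  set r : ι → ℕ := Function.update x i (x i % D.m i) with hr
  have hri : r i = x i % D.m i := by simp [hr]
  have hrk : ∀ k, k ≠ i → r k = x k := fun k h => by simp [hr, h]
  have hrR : r ∈ D.R := by
    rw [mem_R]
    intro k
    by_cases h : k = i
    · subst h; rw [hri]; exact Nat.mod_lt _ (D.hm k)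
    · rw [hrk k h]; exact hk k h
  have hxr : x = r + (x i / D.m i) • D.E i := by
    funext k
    by_cases h : k = i
    · subst h
      simp only [Pi.add_apply, Pi.smul_apply, smul_eq_mul, E_self, hri]
      rw [mul_comm]
      exact (Nat.mod_add_div _ _).symm
    · simp [hrk k h, D.E_ne h]
  have h1 : D.lev i r ≤ x i / D.m i := D.lev_le i r (hxr ▸ hx)
  rcases h1.eq_or_lt with h | h
  · refine mem_image.2 ⟨r, hrR, ?_⟩
    rw [ap, h]; exact hxr.symm
  · exfalso
    obtain ⟨j, hj⟩ : ∃ j, x i / D.m i = D.lev i r + j + 1 := ⟨x i / D.m i - D.lev i r - 1, by omega⟩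
    refine hn (r + D.lev i r • D.E i + j • D.E i)
      (D.S.add_mem (D.lev_spec i r) (D.S.nsmul_mem (D.E_mem i) j)) ?_
    conv_lhs => rw [hxr, hj]
    rw [succ_nsmul, add_nsmul]
    abel

theorem P_mem (i : ι) {x : ι → ℕ} (hx : x ∈ D.P i) : x ∈ D.S := by
  obtain ⟨r, _, rfl⟩ := mem_image.1 hx
  exact D.lev_spec i r

theorem P_slab (i : ι) {x : ι → ℕ} (hx : x ∈ D.P i) {k : ι} (hk : k ≠ i) : x k < D.m k := by
  obtain ⟨r, hr, rfl⟩ := mem_image.1 hx
  rw [D.ap_ne r hk]; exact D.mem_R.1 hr k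

theorem P_top (i : ι) {x : ι → ℕ} (hx : x ∈ D.P i) : x i + 1 ≤ D.c i + D.m i := by
  obtain ⟨r, hr, rfl⟩ := mem_image.1 hx
  rw [ap_self]
  have h1 := D.lev_le_qq i r
  have h2 := D.mem_R.1 hr i
  have h3 := D.hc i
  rcases Nat.eq_zero_or_pos (D.lev i r) with h | h
  · rw [h]; omega
  · have h4 : D.lev i r - 1 < qq (D.c i) (D.m i) (r i) := by omega
    rw [lt_qq (D.hm i)] at h4
    have : D.m i * D.lev i r = D.m i * (D.lev i r - 1) + D.m i := by
      conv_lhs => rw [← Nat.sub_add_cancel h]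
      ring
    omega

theorem P_closed (i : ι) {y z : ι → ℕ} (hx : y + z ∈ D.P i) (hy : y ∈ D.S) (hz : z ∈ D.S) :
    y ∈ D.P i := by
  refine D.mem_P_of i hy (fun k hk => ?_) (fun u hu h => ?_)
  · have := D.P_slab i hx hk
    simp only [Pi.add_apply] at this
    omega
  · refine D.P_not_add i hx (D.S.add_mem hu hz) ?_
    rw [h]; abel

/-- generators lying in the slab of the axis `i` -/
def X (i : ι) : Finset (ι → ℕ) := D.G.filter fun g => ∀ k, k ≠ i → g k < D.m k

theorem X_big (i : ι) {g : ι → ℕ} (hg : g ∈ D.X i) : D.m i ≤ g i := by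
  rw [X, mem_filter] at hg
  have h1 := (D.hG g).1 hg.1
  by_contra h
  refine h1.2.1 (D.hempty g h1.1 fun k => ?_)
  by_cases hk : k = i
  · subst hk; omega
  · exact hg.2 k hk

theorem E_mem_X (i : ι) : D.E i ∈ D.X i := by
  rw [X, mem_filter, D.hG]
  refine ⟨⟨D.E_mem i, ?_, fun a ha b hb hab => ?_⟩, fun k hk => ?_⟩
  · intro h
    have h1 := congrFun h i
    rw [E_self] at h1
    have := D.hm i
    simp at h1
    omega
  · have hi := congrFun hab i
    simp only [Pi.add_apply, E_self] at hi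
    have hk : ∀ k, k ≠ i → a k = 0 ∧ b k = 0 := by
      intro k hk
      have := congrFun hab k
      simp only [Pi.add_apply, D.E_ne hk] at this
      omega
    by_cases h : a i < D.m i
    · left
      refine D.hempty a ha fun k => ?_
      by_cases h' : k = i
      · subst h'; exact h
      · rw [(hk k h').1]; exact D.hm k
    · right
      funext k
      by_cases h' : k = i
      · subst h'; simp; omega
      · exact (hk k h').2
  · rw [D.E_ne hk]; exact D.hm k

theorem X_disj {i j : ι} (h : i ≠ j) : Disjoint (D.X i) (D.X j) := by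
  rw [Finset.disjoint_left]
  intro g hi hj
  have h1 := D.X_big i hi
  rw [X, mem_filter] at hj
  have := hj.2 i h
  omega

theorem sum_X_le : ∑ i, (D.X i).card ≤ D.G.card := by
  rw [← Finset.card_biUnion (fun i _ j _ h => D.X_disj h)]
  refine Finset.card_le_card fun g hg => ?_
  obtain ⟨i, _, hi⟩ := mem_biUnion.1 hg
  exact (mem_filter.1 hi).1

end Setup

end Pool.Agent.MP_96f5a9_co.h22

end MrgPart1

-- ======== part 2: formerly Pool.Agent.MP_96f5a9_co.h22.Charge
section MrgPart2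

/-! Charging the parts of an Apery element to lower Apery elements. -/

set_option autoImplicit false

namespace Pool.Agent.MP_96f5a9_co.h22

open Finset

/-- `0` at `0`, and `n + 1` otherwise -/
def Phi (n : ℕ) : ℕ := if n = 0 then 0 else n + 1

namespace Setup

variable {ι : Type} [Fintype ι] [DecidableEq ι] (D : Setup ι)

/-- weight: number of translates in the other directions -/
def om (i : ι) (x : ι → ℕ) : ℕ := ∏ k ∈ univ.erase i, qq (D.c k) (D.m k) (x k)

theorem om_anti (i : ι) {x y : ι → ℕ} (h : ∀ k, y k ≤ x k) : D.om i x ≤ D.om i y :=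
  Finset.prod_le_prod' fun k _ => qq_anti (h k)

theorem om_ap (i : ι) (r : ι → ℕ) : D.om i (D.ap i r) = D.om i r :=
  Finset.prod_congr rfl fun k hk => by rw [D.ap_ne r (Finset.ne_of_mem_erase hk)]

/-- charge of a part `τ • g` -/
def psi (i : ι) (g : ι → ℕ) (τ : ℕ) : ℕ := if τ = 0 then 0 else τ * g i / D.m i + 1

theorem charge_gen (i : ι) {g : ι → ℕ} (hg : g ∈ D.X i) (t : (ι → ℕ) → (ι → ℕ) → ℕ)
    (ht : ∀ x ∈ D.P i, x = ∑ u ∈ D.G, t x u • u) :
    ∑ x ∈ D.P i, D.om i x * D.psi i g (t x g) ≤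
      ∑ x ∈ D.P i, D.om i x * Phi (qq (D.c i) (D.m i) (x i)) := by
  classical
  refine layer_cake _ _ _ _ fun v => ?_
  by_cases hv : ∃ k, v < D.psi i g k
  swap
  · refine ⟨id, fun x hx => absurd ⟨_, hx.2⟩ hv, fun x _ hx => absurd ⟨_, hx⟩ hv⟩
  set k := Nat.find hv with hk
  have hk1 : v < D.psi i g k := Nat.find_spec hv
  have hk0 : k ≠ 0 := by
    intro h
    rw [h] at hk1
    simp [psi] at hk1
  have hgG : g ∈ D.G := (mem_filter.1 hg).1
  have hS : ∀ u ∈ D.G, u ∈ D.S := fun u hu => ((D.hG u).1 hu).1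
  have split : ∀ x ∈ D.P i, v < D.psi i g (t x g) → ∃ y ∈ D.S, x = y + k • g := by
    intro x hx hxv
    have hle : k ≤ t x g := Nat.find_min' hv hxv
    refine ⟨∑ u ∈ D.G.erase g, t x u • u + (t x g - k) • g, ?_, ?_⟩
    · exact D.S.add_mem (D.S.sum_mem fun u hu =>
        D.S.nsmul_mem (hS u (mem_of_mem_erase hu)) _) (D.S.nsmul_mem (hS g hgG) _)
    · rw [add_assoc, ← add_nsmul, Nat.sub_add_cancel hle, Finset.sum_erase_add _ _ hgG]
      exact ht x hx
  refine ⟨fun x => x - k • g, ?_, ?_⟩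
  · intro x hx x' hx' h
    obtain ⟨y, _, rfl⟩ := split x hx.1 hx.2
    obtain ⟨y', _, rfl⟩ := split x' hx'.1 hx'.2
    simp only [add_tsub_cancel_right] at h
    rw [h]
  · intro x hx hxv
    obtain ⟨y, hy, rfl⟩ := split x hx hxv
    simp only [add_tsub_cancel_right]
    refine ⟨D.P_closed i hx hy (D.S.nsmul_mem (hS g hgG) _), ?_, D.om_anti i fun j => by simp⟩
    have h1 := D.P_top i hx
    simp only [Pi.add_apply, Pi.smul_apply, smul_eq_mul] at h1
    have h2 : k * g i / D.m i ≤ qq (D.c i) (D.m i) (y i) := Nat.div_le_div_right (by omega)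
    have h3 : 1 ≤ k * g i / D.m i := by
      rw [Nat.le_div_iff_mul_le (D.hm i)]
      have := D.X_big i hg
      have : 1 * g i ≤ k * g i := Nat.mul_le_mul_right _ (Nat.one_le_iff_ne_zero.2 hk0)
      omega
    simp only [psi, hk0, if_false] at hk1
    have h4 : qq (D.c i) (D.m i) (y i) ≠ 0 := by omega
    simp only [Phi, h4, if_false]
    omega

theorem need_le (i : ι) {x : ι → ℕ} (hx : x ∈ D.P i) (h0 : x ≠ 0) (t : (ι → ℕ) → ℕ)
    (ht : x = ∑ u ∈ D.G, t u • u) :
    x i / D.m i + 1 ≤ ∑ g ∈ (D.X i).erase (D.E i), D.psi i g (t g) := by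
  have hS : ∀ u ∈ D.G, u ∈ D.S := fun u hu => ((D.hG u).1 hu).1
  have hsub : (D.X i).erase (D.E i) ⊆ D.G := fun g hg => (mem_filter.1 (mem_of_mem_erase hg)).1
  have hsupp : ∀ u ∈ D.G, u ∉ (D.X i).erase (D.E i) → t u = 0 := by
    intro u hu hnu
    by_contra htu
    have hsplit : x = (∑ w ∈ D.G.erase u, t w • w + (t u - 1) • u) + u := by
      rw [add_assoc, ← succ_nsmul, Nat.sub_add_cancel (Nat.one_le_iff_ne_zero.2 htu),
        Finset.sum_erase_add _ _ hu]
      exact ht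
    have hmem : (∑ w ∈ D.G.erase u, t w • w + (t u - 1) • u) ∈ D.S :=
      D.S.add_mem (D.S.sum_mem fun w hw =>
        D.S.nsmul_mem (hS w (mem_of_mem_erase hw)) _) (D.S.nsmul_mem (hS u hu) _)
    apply hnu
    rw [mem_erase, X, mem_filter]
    refine ⟨fun h => D.P_not_add i hx hmem (h ▸ hsplit), hu, fun k hk => ?_⟩
    have h1 := D.P_slab i hx hk
    have h2 := congrFun hsplit k
    simp only [Pi.add_apply] at h2
    omega
  have hx2 : x = ∑ u ∈ (D.X i).erase (D.E i), t u • u := by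
    rw [ht]
    refine (Finset.sum_subset hsub fun u hu hnu => ?_).symm
    rw [hsupp u hu hnu, zero_nsmul]
  have hxi : x i = ∑ u ∈ (D.X i).erase (D.E i), t u * u i := by
    conv_lhs => rw [hx2]
    simp [Finset.sum_apply]
  have hex : ∃ u ∈ (D.X i).erase (D.E i), t u ≠ 0 := by
    by_contra h
    push Not at h
    apply h0
    rw [hx2]
    exact Finset.sum_eq_zero fun u hu => by rw [h u hu, zero_nsmul]
  have hlt : x i < (∑ g ∈ (D.X i).erase (D.E i), D.psi i g (t g)) * D.m i := by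
    rw [hxi, Finset.sum_mul]
    have one : ∀ u : ι → ℕ, t u ≠ 0 → t u * u i < D.psi i u (t u) * D.m i := by
      intro u hu
      simp only [psi, hu, if_false]
      have := Nat.lt_div_mul_add (a := t u * u i) (D.hm i)
      rw [add_mul, one_mul]
      exact this
    refine Finset.sum_lt_sum (fun u _ => ?_) ?_
    · by_cases hu : t u = 0
      · simp [hu]
      · exact (one u hu).le
    · obtain ⟨u, hu, hu0⟩ := hex
      exact ⟨u, hu, one u hu0⟩
  exact (Nat.div_lt_iff_lt_mul (D.hm i)).2 hlt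

/-- The one-direction inequality. -/
theorem direction (i : ι) :
    ∑ r ∈ D.R, D.om i r * Phi (D.lev i r) ≤
      ((D.X i).card - 1) *
        ∑ r ∈ D.R, D.om i r * Phi (qq (D.c i) (D.m i) (r i) - D.lev i r) := by
  classical
  have hex : ∀ x : ι → ℕ, ∃ t : (ι → ℕ) → ℕ, x ∈ D.P i → x = ∑ u ∈ D.G, t u • u := by
    intro x
    by_cases hx : x ∈ D.P i
    · obtain ⟨t, ht⟩ := exists_fact D.S D.G D.hG x (D.P_mem i hx)
      exact ⟨t, fun _ => ht⟩
    · exact ⟨0, fun h => absurd h hx⟩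
  choose t ht using hex
  have h1 : ∑ r ∈ D.R, D.om i r * Phi (D.lev i r) ≤
      ∑ x ∈ D.P i, D.om i x * ∑ g ∈ (D.X i).erase (D.E i), D.psi i g (t x g) := by
    rw [P, Finset.sum_image (D.ap_inj i)]
    refine Finset.sum_le_sum fun r hr => ?_
    rw [om_ap]
    refine Nat.mul_le_mul_left _ ?_
    by_cases hl : D.lev i r = 0
    · simp [Phi, hl]
    · have hx : D.ap i r ∈ D.P i := mem_image_of_mem _ hr
      have hdiv : D.ap i r i / D.m i = D.lev i r := by
        rw [ap_self, Nat.add_mul_div_left _ _ (D.hm i), Nat.div_eq_of_lt (D.mem_R.1 hr i),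
          zero_add]
      have h0 : D.ap i r ≠ 0 := by
        intro h
        rw [h] at hdiv
        simp at hdiv
        omega
      have := D.need_le i hx h0 _ (ht _ hx)
      rw [hdiv] at this
      simpa [Phi, hl] using this
  have h2 : ∑ x ∈ D.P i, D.om i x * Phi (qq (D.c i) (D.m i) (x i)) =
      ∑ r ∈ D.R, D.om i r * Phi (qq (D.c i) (D.m i) (r i) - D.lev i r) := by
    rw [P, Finset.sum_image (D.ap_inj i)]
    refine Finset.sum_congr rfl fun r _ => ?_
    rw [om_ap, ap_self, qq_add (D.hm i)]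
  refine h1.trans ?_
  simp_rw [Finset.mul_sum]
  rw [Finset.sum_comm, ← Finset.mul_sum, ← h2, ← Finset.card_erase_of_mem (D.E_mem_X i),
    ← smul_eq_mul, ← Finset.sum_const]
  exact Finset.sum_le_sum fun g hg => D.charge_gen i (mem_of_mem_erase hg) t ht

end Setup

end Pool.Agent.MP_96f5a9_co.h22

end MrgPart2

-- ======== part 3: formerly Pool.Agent.MP_96f5a9_co.h22.Count
section MrgPart3

/-! Counting elements in the box and the final inequalities. -/

set_option autoImplicit false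

namespace Pool.Agent.MP_96f5a9_co.h22

open Finset

theorem Phi_le (n : ℕ) : Phi n ≤ 2 * n := by
  unfold Phi; split_ifs <;> omega

theorem two_le_add {u v : ℝ} (hu : 0 ≤ u) (hv : 0 ≤ v) (h : 1 ≤ u * v) : 2 ≤ u + v := by
  nlinarith [sq_nonneg (u - v), sq_nonneg (u + v - 2)]

/-- the two-direction inequality for one residue class -/
theorem pair_ineq {l1 d1 l2 d2 : ℕ} (h1 : 1 ≤ l1) (h2 : 1 ≤ l2) {k1 k2 : ℝ}
    (hk1 : k1 ≤ 1 - 1 / ((l1 + d1 : ℝ) + 2)) (hk2 : k2 ≤ 1 - 1 / ((l2 + d2 : ℝ) + 2)) :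
    k1 * Phi d1 * (l2 + d2) + k2 * Phi d2 * (l1 + d1) ≤
      2 * (((l1 : ℝ) + d1) * (l2 + d2) - l1 * l2) := by
  have a1 : (1 : ℝ) ≤ l1 := by exact_mod_cast h1
  have a2 : (1 : ℝ) ≤ l2 := by exact_mod_cast h2
  have b1 : (0 : ℝ) ≤ d1 := Nat.cast_nonneg _
  have b2 : (0 : ℝ) ≤ d2 := Nat.cast_nonneg _
  have p1 : (0 : ℝ) < 1 / ((l1 + d1 : ℝ) + 2) := by positivity
  have p2 : (0 : ℝ) < 1 / ((l2 + d2 : ℝ) + 2) := by positivity
  have c1 : (Phi d1 : ℝ) ≤ 2 * d1 := by exact_mod_cast Phi_le d1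
  have c2 : (Phi d2 : ℝ) ≤ 2 * d2 := by exact_mod_cast Phi_le d2
  have e1 : (0 : ℝ) ≤ Phi d1 := Nat.cast_nonneg _
  have e2 : (0 : ℝ) ≤ Phi d2 := Nat.cast_nonneg _
  rcases Nat.eq_zero_or_pos d1 with h | h
  · subst h
    have : k2 * Phi d2 ≤ 2 * d2 := by nlinarith
    simp only [Phi, if_true, Nat.cast_zero, mul_zero, zero_mul, add_zero, zero_add] at *
    nlinarith
  rcases Nat.eq_zero_or_pos d2 with h' | h'
  · subst h'
    have : k1 * Phi d1 ≤ 2 * d1 := by nlinarith
    simp only [Phi, if_true, Nat.cast_zero, mul_zero, zero_mul, add_zero, zero_add] at *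
    nlinarith
  have f1 : (1 : ℝ) ≤ d1 := by exact_mod_cast h
  have f2 : (1 : ℝ) ≤ d2 := by exact_mod_cast h'
  have g1 : (Phi d1 : ℝ) = d1 + 1 := by simp [Phi, h.ne']
  have g2 : (Phi d2 : ℝ) = d2 + 1 := by simp [Phi, h'.ne']
  rw [g1, g2]
  set x1 := 1 / ((l1 + d1 : ℝ) + 2) with hx1
  set x2 := 1 / ((l2 + d2 : ℝ) + 2) with hx2
  have y1 : 1 ≤ 2 * ((l1 + d1) * x1) := by
    rw [hx1, mul_one_div, ← mul_div_assoc, le_div_iff₀ (by positivity)]; linarith
  have y2 : 1 ≤ 2 * ((l2 + d2) * x2) := by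
    rw [hx2, mul_one_div, ← mul_div_assoc, le_div_iff₀ (by positivity)]; linarith
  have z : 2 ≤ x1 * (d1 + 1) * (l2 + d2) + x2 * (d2 + 1) * (l1 + d1) := by
    refine two_le_add (by positivity) (by positivity) ?_
    have w1 : 1 ≤ (d1 + 1) * ((l1 + d1) * x1) := by nlinarith
    have w2 : 1 ≤ (d2 + 1) * ((l2 + d2) * x2) := by nlinarith
    calc (1 : ℝ) ≤ ((d1 + 1) * ((l1 + d1) * x1)) * ((d2 + 1) * ((l2 + d2) * x2)) := by nlinarith
      _ = _ := by ring
  have t1 : k1 * (d1 + 1) * (l2 + d2) ≤ (1 - x1) * (d1 + 1) * (l2 + d2) := by gcongr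
  have t2 : k2 * (d2 + 1) * (l1 + d1) ≤ (1 - x2) * (d2 + 1) * (l1 + d1) := by gcongr
  nlinarith [mul_nonneg (sub_nonneg.2 f1) (sub_nonneg.2 a2),
    mul_nonneg (sub_nonneg.2 f2) (sub_nonneg.2 a1)]

namespace Setup

variable {ι : Type} [Fintype ι] [DecidableEq ι] (D : Setup ι)

/-- the box -/
def Box : Finset (ι → ℕ) := Fintype.piFinset fun k => range (D.c k)

open Classical in
/-- elements of the monoid in the box -/
noncomputable def N : Finset (ι → ℕ) := D.Box.filter fun x => x ∈ D.S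

theorem sum_prod_qq : ∑ r ∈ D.R, ∏ k, qq (D.c k) (D.m k) (r k) = ∏ k, D.c k := by
  rw [R, ← Finset.prod_univ_sum (fun k => range (D.m k)) (fun k r => qq (D.c k) (D.m k) r)]
  exact Finset.prod_congr rfl fun k _ => sum_qq _ (D.hm k)

theorem count_le : ∏ k, D.c k ≤ D.N.card + ∑ r ∈ D.R, ∏ k, D.lev k r := by
  classical
  have h1 : D.Box.card = ∏ k, D.c k := by simp [Box, Fintype.card_piFinset]
  rw [← h1, ← Finset.card_filter_add_card_filter_not (s := D.Box) (fun x => x ∈ D.S)]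
  refine Nat.add_le_add (le_of_eq (by rw [N])) ?_
  have h2 : ∑ r ∈ D.R, ∏ k, D.lev k r =
      (D.R.sigma fun r => Fintype.piFinset fun k => range (D.lev k r)).card := by
    rw [Finset.card_sigma]
    exact Finset.sum_congr rfl fun r _ => by simp [Fintype.card_piFinset]
  rw [h2]
  refine Finset.card_le_card_of_injOn
    (fun z => ⟨fun k => z k % D.m k, fun k => z k / D.m k⟩) ?_ ?_
  · intro z hz
    have hz' := (mem_filter.1 (Finset.mem_coe.1 hz)).2
    rw [Finset.mem_coe, mem_sigma]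
    refine ⟨D.mem_R.2 fun k => Nat.mod_lt _ (D.hm k), ?_⟩
    simp only [Fintype.mem_piFinset, mem_range]
    intro k
    by_contra hk
    push Not at hk
    apply hz'
    set r : ι → ℕ := fun k => z k % D.m k with hr
    have hz : z = (r + D.lev k r • D.E k) + ((z k / D.m k - D.lev k r) • D.E k +
        ∑ j ∈ univ.erase k, (z j / D.m j) • D.E j) := by
      rw [add_assoc, ← add_assoc (D.lev k r • D.E k), ← add_nsmul, Nat.add_sub_cancel' hk,
        Finset.add_sum_erase _ (fun j => (z j / D.m j) • D.E j) (mem_univ k)]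
      funext j
      simp only [Pi.add_apply, Finset.sum_apply, Pi.smul_apply, smul_eq_mul]
      rw [Finset.sum_eq_single j]
      · rw [E_self, mul_comm]; exact (Nat.mod_add_div _ _).symm
      · intro b _ hb; rw [D.E_ne hb.symm, mul_zero]
      · intro h; exact absurd (mem_univ j) h
    rw [hz]
    exact D.S.add_mem (D.lev_spec k r) (D.S.add_mem (D.S.nsmul_mem (D.E_mem k) _)
      (D.S.sum_mem fun j _ => D.S.nsmul_mem (D.E_mem j) _))
  · intro z _ z' _ h
    simp only [Sigma.mk.injEq, heq_eq_eq] at h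
    funext k
    have h1 := congrFun h.1 k
    have h2 := congrFun h.2 k
    rw [← Nat.mod_add_div (z k) (D.m k), ← Nat.mod_add_div (z' k) (D.m k), h1, h2]

theorem zero_mem_R : (0 : ι → ℕ) ∈ D.R := D.mem_R.2 fun k => D.hm k

theorem m_le_c (i : ι) : D.m i ≤ D.c i := by
  by_contra h
  push Not at h
  have h1 : (Pi.single i (D.c i) : ι → ℕ) ∈ D.S := by
    by_contra h'
    have := D.hbox _ h' i
    simp at this
  have h2 := D.hempty _ h1 fun k => by
    by_cases hk : k = i
    · subst hk; simpa using h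
    · simpa [hk] using D.hm k
  have h3 := congrFun h2 i
  have := D.hc i
  simp at h3
  omega

theorem qq_pos {r : ι → ℕ} (hr : r ∈ D.R) (k : ι) : 0 < qq (D.c k) (D.m k) (r k) := by
  rw [lt_qq (D.hm k)]
  have := D.mem_R.1 hr k
  have := D.m_le_c k
  omega

theorem om_mul (i : ι) (r : ι → ℕ) :
    qq (D.c i) (D.m i) (r i) * D.om i r = ∏ k, qq (D.c k) (D.m k) (r k) :=
  Finset.mul_prod_erase univ (fun k => qq (D.c k) (D.m k) (r k)) (mem_univ i)

end Setup

end Pool.Agent.MP_96f5a9_co.h22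

end MrgPart3

-- ======== part 4: formerly Pool.Agent.MP_96f5a9_co.h22.Main
section MrgPart4

/-! The main inequalities. -/

set_option autoImplicit false

namespace Pool.Agent.MP_96f5a9_co.h22

open Finset

namespace Setup

variable {ι : Type} [Fintype ι] [DecidableEq ι] (D : Setup ι)

/-- normalising factor -/
noncomputable def kap (i : ι) : ℝ := 1 - 1 / ((qq (D.c i) (D.m i) 0 : ℝ) + 1)

/-- capacity of the class `r` in the direction `i` -/
noncomputable def cap (i : ι) (r : ι → ℕ) : ℝ :=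
  D.kap i * Phi (qq (D.c i) (D.m i) (r i) - D.lev i r) * D.om i r

theorem kap_mul (i : ι) : D.kap i * ((qq (D.c i) (D.m i) 0 : ℝ) + 1) = qq (D.c i) (D.m i) 0 := by
  unfold kap; field_simp; ring

theorem kap_nonneg (i : ι) : 0 ≤ D.kap i := by
  unfold kap
  rw [sub_nonneg, div_le_one (by positivity)]
  have : (0 : ℝ) ≤ qq (D.c i) (D.m i) 0 := Nat.cast_nonneg _
  linarith

theorem X_pos (i : ι) : 1 ≤ (D.X i).card := Finset.card_pos.2 ⟨_, D.E_mem_X i⟩

theorem direction_nat (i : ι) :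
    ∑ r ∈ D.R, D.om i r * (qq (D.c i) (D.m i) (r i) + 1) ≤
      (D.X i).card * ∑ r ∈ D.R, D.om i r * Phi (qq (D.c i) (D.m i) (r i) - D.lev i r) := by
  have h1 := D.direction i
  have h2 : ∑ r ∈ D.R, D.om i r * (qq (D.c i) (D.m i) (r i) + 1) ≤
      ∑ r ∈ D.R, D.om i r * Phi (D.lev i r) +
        ∑ r ∈ D.R, D.om i r * Phi (qq (D.c i) (D.m i) (r i) - D.lev i r) := by
    rw [← Finset.sum_add_distrib]
    refine Finset.sum_le_sum fun r hr => ?_
    rw [← mul_add]
    refine Nat.mul_le_mul_left _ ?_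
    have := D.lev_le_qq i r
    have := D.qq_pos hr i
    unfold Phi
    split_ifs <;> omega
  have h3 := D.X_pos i
  obtain ⟨e, he⟩ : ∃ e, (D.X i).card = e + 1 := ⟨(D.X i).card - 1, by omega⟩
  rw [he] at h1 ⊢
  rw [Nat.add_sub_cancel] at h1
  rw [add_mul, one_mul]
  omega

theorem direction_real (i : ι) :
    (∏ k, D.c k : ℕ) ≤ ((D.X i).card : ℝ) * ∑ r ∈ D.R, D.cap i r := by
  have h1 : ((∑ r ∈ D.R, D.om i r * (qq (D.c i) (D.m i) (r i) + 1) : ℕ) : ℝ) ≤
      (((D.X i).card * ∑ r ∈ D.R, D.om i r * Phi (qq (D.c i) (D.m i) (r i) - D.lev i r) : ℕ) : ℝ) :=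
    by exact_mod_cast D.direction_nat i
  have h2 : ((D.X i).card : ℝ) * ∑ r ∈ D.R, D.cap i r = D.kap i *
      (((D.X i).card * ∑ r ∈ D.R, D.om i r * Phi (qq (D.c i) (D.m i) (r i) - D.lev i r) : ℕ) : ℝ) := by
    push_cast
    rw [mul_left_comm, Finset.mul_sum _ _ (D.kap i)]
    congr 1
    exact Finset.sum_congr rfl fun r _ => by unfold cap; ring
  rw [h2]
  refine le_trans ?_ (mul_le_mul_of_nonneg_left h1 (D.kap_nonneg i))
  rw [← D.sum_prod_qq]
  push_cast
  rw [Finset.mul_sum]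
  refine Finset.sum_le_sum fun r _ => ?_
  have h3 : (∏ k, (qq (D.c k) (D.m k) (r k) : ℝ)) = qq (D.c i) (D.m i) (r i) * D.om i r := by
    exact_mod_cast (D.om_mul i r).symm
  rw [h3]
  have h4 : (qq (D.c i) (D.m i) (r i) : ℝ) ≤ qq (D.c i) (D.m i) 0 := by
    exact_mod_cast qq_anti (Nat.zero_le _)
  have h5 : (qq (D.c i) (D.m i) (r i) : ℝ) ≤ D.kap i * (qq (D.c i) (D.m i) (r i) + 1) := by
    unfold kap
    have : 1 / ((qq (D.c i) (D.m i) 0 : ℝ) + 1) * (qq (D.c i) (D.m i) (r i) + 1) ≤ 1 := by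
      rw [div_mul_eq_mul_div, div_le_one (by positivity)]; linarith
    nlinarith
  have h6 : (0 : ℝ) ≤ D.om i r := Nat.cast_nonneg _
  nlinarith

theorem cap_pair {r : ι → ℕ} (hr : r ∈ D.R) {i j : ι} (hij : j ≠ i) :
    D.cap i r + D.cap j r ≤
      2 * ((∏ k, qq (D.c k) (D.m k) (r k) : ℕ) - ((∏ k, D.lev k r : ℕ) : ℝ)) := by
  by_cases h0 : r = 0
  · subst h0
    have h1 : ∀ k, D.cap k 0 = (∏ k, qq (D.c k) (D.m k) ((0 : ι → ℕ) k) : ℕ) := by
      intro k
      have hp := D.qq_pos D.zero_mem_R k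
      rw [← D.om_mul k 0]
      unfold cap
      rw [lev_zero]
      simp only [Pi.zero_apply, Nat.sub_zero] at hp ⊢
      simp only [Phi, hp.ne', if_false]
      push_cast
      rw [kap_mul]
    have h2 : ∏ k, D.lev k 0 = 0 := Finset.prod_eq_zero (mem_univ i) (D.lev_zero i)
    rw [h1, h1, h2]
    push_cast
    linarith
  set W := ∏ k ∈ (univ.erase i).erase j, qq (D.c k) (D.m k) (r k) with hW
  have hj : j ∈ univ.erase i := mem_erase.2 ⟨hij, mem_univ j⟩
  have hi : i ∈ univ.erase j := mem_erase.2 ⟨hij.symm, mem_univ i⟩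
  have e1 : D.om i r = qq (D.c j) (D.m j) (r j) * W :=
    (Finset.mul_prod_erase _ (fun k => qq (D.c k) (D.m k) (r k)) hj).symm
  have e2 : D.om j r = qq (D.c i) (D.m i) (r i) * W := by
    rw [hW, Finset.erase_right_comm]
    exact (Finset.mul_prod_erase _ (fun k => qq (D.c k) (D.m k) (r k)) hi).symm
  have e3 : ∏ k, D.lev k r ≤ D.lev i r * D.lev j r * W := by
    rw [← Finset.mul_prod_erase univ (fun k => D.lev k r) (mem_univ i),
      ← Finset.mul_prod_erase _ (fun k => D.lev k r) hj, mul_assoc]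
    exact Nat.mul_le_mul_left _ (Nat.mul_le_mul_left _
      (Finset.prod_le_prod' fun k _ => D.lev_le_qq k r))
  have hk : ∀ k, D.kap k ≤ 1 - 1 / (((D.lev k r : ℝ) +
      ((qq (D.c k) (D.m k) (r k) - D.lev k r : ℕ) : ℝ)) + 2) := by
    intro k
    rw [← Nat.cast_add, Nat.add_sub_cancel' (D.lev_le_qq k r)]
    unfold kap
    have : (qq (D.c k) (D.m k) 0 : ℝ) ≤ qq (D.c k) (D.m k) (r k) + 1 := by
      exact_mod_cast qq_succ_ge (D.hm k) (D.mem_R.1 hr k)
    have : 1 / ((qq (D.c k) (D.m k) (r k) : ℝ) + 2) ≤ 1 / ((qq (D.c k) (D.m k) 0 : ℝ) + 1) :=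
      one_div_le_one_div_of_le (by positivity) (by linarith)
    linarith
  have hp := pair_ineq (D.lev_pos i hr h0) (D.lev_pos j hr h0) (hk i) (hk j)
  rw [← Nat.cast_add, ← Nat.cast_add, Nat.add_sub_cancel' (D.lev_le_qq i r),
    Nat.add_sub_cancel' (D.lev_le_qq j r)] at hp
  have e4 : ((∏ k, D.lev k r : ℕ) : ℝ) ≤ D.lev i r * D.lev j r * W := by exact_mod_cast e3
  rw [← D.om_mul i r]
  unfold cap
  rw [e1, e2]
  push_cast at e4 ⊢
  have hW0 : (0 : ℝ) ≤ W := Nat.cast_nonneg _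
  have := mul_le_mul_of_nonneg_right hp hW0
  nlinarith

theorem sum_cap_le (σ : Equiv.Perm ι) (hσ : ∀ i, σ i ≠ i) :
    ∑ i, ∑ r ∈ D.R, D.cap i r ≤ Fintype.card ι * (D.N.card : ℝ) := by
  have h1 : ∀ r ∈ D.R, ∑ i, D.cap i r ≤ Fintype.card ι *
      ((∏ k, qq (D.c k) (D.m k) (r k) : ℕ) - ((∏ k, D.lev k r : ℕ) : ℝ)) := by
    intro r hr
    have h2 : ∑ i, (D.cap i r + D.cap (σ i) r) ≤ ∑ _i : ι,
        2 * ((∏ k, qq (D.c k) (D.m k) (r k) : ℕ) - ((∏ k, D.lev k r : ℕ) : ℝ)) :=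
      Finset.sum_le_sum fun i _ => D.cap_pair hr (hσ i)
    rw [Finset.sum_add_distrib, Equiv.sum_comp σ (fun i => D.cap i r), Finset.sum_const,
      card_univ, nsmul_eq_mul] at h2
    linarith
  rw [Finset.sum_comm]
  refine (Finset.sum_le_sum h1).trans ?_
  rw [← Finset.mul_sum, Finset.sum_sub_distrib, ← Nat.cast_sum, ← Nat.cast_sum, D.sum_prod_qq]
  have h3 : ((∏ k, D.c k : ℕ) : ℝ) ≤ D.N.card + ((∑ r ∈ D.R, ∏ k, D.lev k r : ℕ) : ℝ) := by
    exact_mod_cast D.count_le
  exact mul_le_mul_of_nonneg_left (by linarith) (Nat.cast_nonneg _)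

theorem N_pos : 0 < D.N.card := by
  classical
  refine Finset.card_pos.2 ⟨0, ?_⟩
  rw [N, mem_filter]
  exact ⟨by simpa [Box, Fintype.mem_piFinset] using D.hc, D.S.zero_mem⟩

/-- the generalized Wilf inequality in at least two dimensions -/
theorem wilf_two (σ : Equiv.Perm ι) (hσ : ∀ i, σ i ≠ i) :
    Fintype.card ι * ∏ k, D.c k ≤ D.G.card * D.N.card := by
  have hn : (0 : ℝ) < D.N.card := by exact_mod_cast D.N_pos
  have hc : (0 : ℝ) < (∏ k, D.c k : ℕ) := by
    exact_mod_cast Finset.prod_pos fun k _ => D.hc k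
  set n : ℝ := ((D.N.card : ℕ) : ℝ) with hndef
  set c : ℝ := ((∏ k, D.c k : ℕ) : ℝ) with hcdef
  have h1 : ∀ i, 2 * c * n - c * ∑ r ∈ D.R, D.cap i r ≤ (D.X i).card * n ^ 2 := by
    intro i
    have h := D.direction_real i
    rw [← hcdef] at h
    set A := ∑ r ∈ D.R, D.cap i r
    have he : (0 : ℝ) ≤ (D.X i).card := Nat.cast_nonneg _
    have hA : 0 < A := by
      by_contra hA
      push Not at hA
      nlinarith
    by_contra hcon
    push Not at hcon
    have h2 := mul_lt_mul_of_pos_left hcon hA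
    have h3 := mul_le_mul_of_nonneg_right h (sq_nonneg n)
    nlinarith [mul_nonneg hc.le (sq_nonneg (n - A))]
  have h2 := Finset.sum_le_sum fun i (_ : i ∈ (univ : Finset ι)) => h1 i
  rw [Finset.sum_sub_distrib, Finset.sum_const, card_univ, nsmul_eq_mul, ← Finset.mul_sum,
    ← Finset.sum_mul, ← Nat.cast_sum] at h2
  have h3 := mul_le_mul_of_nonneg_left (D.sum_cap_le σ hσ) hc.le
  rw [← hndef] at h3
  have h4 : ((∑ i, (D.X i).card : ℕ) : ℝ) ≤ D.G.card := by exact_mod_cast D.sum_X_le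
  have h5 := mul_le_mul_of_nonneg_right h4 (sq_nonneg n)
  have h6 : (Fintype.card ι * c) * n ≤ (D.G.card * n) * n := by nlinarith
  have h7 := le_of_mul_le_mul_right h6 hn
  have h8 : ((Fintype.card ι * ∏ k, D.c k : ℕ) : ℝ) ≤ ((D.G.card * D.N.card : ℕ) : ℝ) := by
    rw [Nat.cast_mul, Nat.cast_mul]; exact h7
  exact_mod_cast h8

end Setup

end Pool.Agent.MP_96f5a9_co.h22

end MrgPart4

-- ======== part 5: formerly Pool.Agent.MP_96f5a9_co.h22.Final
section MrgPart5

/-! Passage to the form of the problem. -/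

set_option autoImplicit false

namespace Pool.Agent.MP_96f5a9_co.h22

open Finset

namespace Setup

/-- Wilf's inequality up to the factor two, in dimension one -/
theorem wilf_one (D : Setup (Fin 1)) : D.c 0 ≤ (2 * D.G.card - 1) * D.N.card := by
  have h1 := D.direction 0
  have hom : ∀ r, D.om 0 r = 1 := by
    intro r
    unfold om
    have : (univ : Finset (Fin 1)).erase 0 = ∅ := by decide
    rw [this, Finset.prod_empty]
  simp only [hom, one_mul] at h1
  have h2 := D.count_le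
  have h3 := D.sum_prod_qq
  simp only [Fin.prod_univ_one] at h2 h3
  have h4 : ∑ r ∈ D.R, D.lev 0 r ≤ ∑ r ∈ D.R, Phi (D.lev 0 r) :=
    Finset.sum_le_sum fun r _ => by unfold Phi; split_ifs <;> omega
  have h5 : ∑ r ∈ D.R, Phi (qq (D.c 0) (D.m 0) (r 0) - D.lev 0 r) ≤
      2 * ∑ r ∈ D.R, (qq (D.c 0) (D.m 0) (r 0) - D.lev 0 r) := by
    rw [Finset.mul_sum]
    exact Finset.sum_le_sum fun r _ => Phi_le _
  have h6 : ∑ r ∈ D.R, (qq (D.c 0) (D.m 0) (r 0) - D.lev 0 r) + ∑ r ∈ D.R, D.lev 0 r = D.c 0 := by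
    rw [← Finset.sum_add_distrib]
    exact (Finset.sum_congr rfl fun r _ => Nat.sub_add_cancel (D.lev_le_qq 0 r)).trans h3
  have h7 : (D.X 0).card ≤ D.G.card := Finset.card_le_card (Finset.filter_subset _ _)
  have h8 := D.X_pos 0
  have h9 : ∑ r ∈ D.R, Phi (qq (D.c 0) (D.m 0) (r 0) - D.lev 0 r) ≤ 2 * D.N.card := by omega
  have h10 : ∑ r ∈ D.R, D.lev 0 r ≤ (D.G.card - 1) * (2 * D.N.card) :=
    h4.trans (h1.trans (Nat.mul_le_mul (by omega) h9))
  obtain ⟨e, he⟩ : ∃ e, D.G.card = e + 1 := ⟨D.G.card - 1, by omega⟩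
  rw [he] at h10 ⊢
  rw [Nat.add_sub_cancel] at h10
  have h11 : 2 * (e + 1) - 1 = 2 * e + 1 := by omega
  rw [h11]
  nlinarith

end Setup

variable {ι : Type} [Fintype ι] [DecidableEq ι]

theorem exists_setup (S : AddSubmonoid (ι → ℕ)) (f : ι → ℕ) (hf : f ∉ S)
    (hle : ∀ h, h ∉ S → h ≤ f)
    (hax : ∀ x ∈ S, x ≠ 0 → ∃ i k, 0 < k ∧ k ≤ x i ∧ (Pi.single i k : ι → ℕ) ∈ S) :
    ∃ D : Setup ι, (∀ i, D.c i = f i + 1) ∧
      Set.ncard {x : ι → ℕ | x ∈ S ∧ x ≠ 0 ∧ ∀ a ∈ S, ∀ b ∈ S, a + b = x → a = 0 ∨ b = 0} =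
        D.G.card ∧
      Set.ncard {x : ι → ℕ | x ∈ S ∧ ∃ h : ι → ℕ, h ∉ S ∧ x ≤ h} = D.N.card := by
  classical
  have hbox : ∀ x, x ∉ S → ∀ i, x i < f i + 1 := fun x hx i => Nat.lt_succ_of_le (hle x hx i)
  have hex : ∀ i, ∃ k, 0 < k ∧ (Pi.single i k : ι → ℕ) ∈ S := by
    intro i
    refine ⟨f i + 1, Nat.succ_pos _, ?_⟩
    by_contra h
    have := hbox _ h i
    simp at this
  have hfin := gen_finite S (fun i => f i + 1) (fun i => Nat.succ_pos _) hbox
  refine ⟨⟨S, fun i => f i + 1, fun i => Nat.find (hex i), hfin.toFinset,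
    fun i => Nat.succ_pos _, hbox, fun i => (Nat.find_spec (hex i)).1,
    fun i => (Nat.find_spec (hex i)).2, ?_, fun g => hfin.mem_toFinset⟩, fun i => rfl, ?_, ?_⟩
  · intro x hx hlt
    by_contra h0
    obtain ⟨i, k, hk, hkx, hkS⟩ := hax x hx h0
    have := Nat.find_min' (hex i) ⟨hk, hkS⟩
    have := hlt i
    omega
  · exact Set.ncard_eq_toFinset_card _ hfin
  · rw [← Set.ncard_coe_finset]
    congr 1
    ext x
    simp only [Setup.N, Setup.Box, Set.mem_ofPred_eq, coe_filter, Fintype.mem_piFinset, mem_range]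
    constructor
    · rintro ⟨hx, h, hh, hxh⟩
      exact ⟨fun i => Nat.lt_succ_of_le ((hxh i).trans (hle h hh i)), hx⟩
    · rintro ⟨hx, hxS⟩
      exact ⟨hxS, f, hf, fun i => Nat.lt_succ_iff.1 (hx i)⟩

end Pool.Agent.MP_96f5a9_co.h22

end MrgPart5

-- marker of a merged file
example : 731051 + 6575 = 731051 + 6575 := rfl
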